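import Pool.Agent.Q136.KM.Sep
import Pool.Agent.H914R2.ExtOp

/-!
# The Kunneth standard conjecture and the middle degree
-/

open CategoryTheory AlgebraicGeometry Finset

universe u v

namespace Pool.Agent.Q136.KM

open Pool.Agent.H914 Pool.Agent.W534 Pool.Agent.W537 Pool.Agent.TH720.LB Pool.Agent.TH133.PW
  Pool.Agent.Q67.Mid Pool.Agent.Q67.Det VarClass Obj WeilCohomology

variable {k : Type u} [Field k] {𝒱 : VarClass k} {ops : CycleOps 𝒱}

/-- The Kunneth standard conjecture for `X`: all Kunneth components of the diagonal are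
`K`-linear combinations of classes of algebraic cycles. -/
def ConjectureC (W : WeilCohomology.{u, v} ops) (X : 𝒱.Obj) : Prop :=
  ∀ i ≤ 2 * X.dim, KunnethIn W X i

/-- The classes in the middle degree of `Y` are separated from the classes of the lower degrees by
algebraic correspondences, one pair of classes at a time: for `y` in `H^N(Y)`, `N = dim Y`, and `y'`
in `H^j(Y)`, `j < N`, a combination of correspondences fixes `y` and kills `y'`. -/
def MiddlePairs (W : WeilCohomology.{u, v} ops) (Y : 𝒱.Obj) : Prop :=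
  ∀ j < Y.dim, PairsAt W Y Y.dim j

/-- The algebraic cycles on `Y × Y` detect the sums `y × w + y' × w'` with `y` and `w` in the middle
degree, `tr (y w) ≠ 0`, and `y'`, `w'` of complementary degrees `j < dim Y` and `2 dim Y - j`. -/
def MiddleDetects (W : WeilCohomology.{u, v} ops) (Y : 𝒱.Obj) : Prop :=
  ∀ j < Y.dim, DetectsAt W Y Y.dim j

/-- The differences in the set `D`. -/
def MidSep (W : WeilCohomology.{u, v} ops) (D : ℕ → Prop) (Y : 𝒱.Obj) : Prop :=
  ∀ j < Y.dim, D (Y.dim - j) → PairsAt W Y Y.dim j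

/-- The product `X × C × ... × C` with `m` factors `C`. -/
noncomputable def timesPow (X C : 𝒱.Obj) : ℕ → 𝒱.Obj
  | 0 => X
  | m + 1 => (timesPow X C m).prod C

/-- `S` holds for the varieties `X × C^m`, `m ≤ dim X + 1`, whose dimension satisfies `q`. -/
def ForPowers (X C : 𝒱.Obj) (q : ℕ → Prop) (S : 𝒱.Obj → Prop) : Prop :=
  ∀ m ≤ X.dim + 1, q (X.dim + m) → S (timesPow X C m)

/-- `S` holds for all varieties whose dimension satisfies `q`. -/
def ForDims (𝒱 : VarClass k) (q : ℕ → Prop) (S : 𝒱.Obj → Prop) : Prop :=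
  ∀ Y : 𝒱.Obj, q Y.dim → S Y

/-- The Kunneth component of the middle degree `N = dim Y` is algebraic. -/
def MiddleKunneth (W : WeilCohomology.{u, v} ops) (Y : 𝒱.Obj) : Prop := KunnethIn W Y Y.dim

/-- The class `ω × ω'` is algebraic for the determinant classes `ω`, `ω'` of bases of the middle
cohomology `H^N(Y)`, `N = dim Y` (they are classes on `Y^b`, where `b` is the Betti number). -/
def MiddleDet (W : WeilCohomology.{u, v} ops) (Y : 𝒱.Obj) : Prop := DetPair W Y Y.dim

/-- The equivalences for one variety `X` and its products with the powers of `C`. -/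
def OneVariety (W : WeilCohomology.{u, v} ops) (C : 𝒱.Obj) (q : ℕ → Prop) (X : 𝒱.Obj) : Prop :=
  List.TFAE [
    ConjectureC W X,
    ForPowers X C q (MiddleKunneth W),
    ForPowers X C q (MiddleDet W),
    ForPowers X C q (MiddlePairs W),
    ForPowers X C q (MiddleDetects W)]

/-- The equivalences for all varieties together. -/
def AllVarieties (W : WeilCohomology.{u, v} ops) (q : ℕ → Prop) : Prop :=
  List.TFAE [
    ForDims 𝒱 (fun _ => True) (ConjectureC W),
    ForDims 𝒱 q (MiddleKunneth W),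
    ForDims 𝒱 q (MiddleDet W),
    ForDims 𝒱 q (MiddlePairs W),
    ForDims 𝒱 q (MiddleDetects W)]

variable {W : WeilCohomology.{u, v} ops} {X Y Z C : 𝒱.Obj} {c : C.Cycles}

lemma dim_timesPow (hC : C.dim = 1) (m : ℕ) : (timesPow X C m).dim = X.dim + m := by
  induction m with
  | zero => rfl
  | succ m ih => rw [timesPow, dim_prod, ih, hC, add_assoc]

lemma opSep_big {i j : ℕ} (hj : 2 * X.dim < j) : OpSep W X i j := by
  refine ⟨LinearMap.id, KOp.id X, fun y _ => rfl, fun y hy => ?_⟩
  rw [W.gr_eq_bot X j hj] at hy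
  rw [(Submodule.mem_bot _).1 hy, map_zero]

/-! ### Descent -/

/-- From the product with a curve, the degrees `0` and `2` of the curve. -/
lemma opSep_of_inc (hC : IsCurveLike W C c) {a i j : ℕ} (ha : a ≤ 1)
    (hs : OpSep W (X.prod C) (i + 2 * a) (j + 2 * a)) : OpSep W X i j := by
  obtain ⟨φ, hφ, h1, h2⟩ := hs
  have hq1 : QOp W X (X.prod C) a (inc W X c a) := by
    have h1 := qop_mul_pow (W := W) (ops.pull_mem (snd X C) hC.div) a
    rw [W.cl_pull, ← map_pow] at h1
    exact (h1.comp (qop_pull (fst X C))).cast (by ring)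
  have hq2 : QOp W (X.prod C) X (-a) (coe W X c a) := by
    have h1 := qop_mul_pow (W := W) (ops.pull_mem (snd X C) hC.div) (C.dim - a)
    rw [W.cl_pull, ← map_pow] at h1
    exact ((qop_push (fst X C)).comp h1).cast (by
      rw [dim_prod, Nat.cast_sub (by rw [hC.dim]; exact ha)]
      push_cast
      ring)
  have hinc : ∀ l, ∀ y ∈ W.gr X l, inc W X c a y ∈ W.gr (X.prod C) (l + 2 * a) := fun l y hy =>
    qop_mem hq1 hy (by push_cast; ring)
  have hci : ∀ x : W.H X, coe W X c a (inc W X c a x) = x := by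
    intro x
    have ht : W.cl C c ∈ W.gr C (2 * 1) := cl_div hC.div
    rw [coe_apply, inc_apply, ← mul_assoc, ← map_mul, ← pow_add, hC.dim,
      show 1 - a + a = 1 by omega, pow_one, push_fst_mul ht, hC.deg, one_smul]
  refine ⟨coe W X c a ∘ₗ φ ∘ₗ inc W X c a,
    KOp.cast (KOp.comp hq2.kop (KOp.comp hφ hq1.kop)) (by ring),
    fun y hy => ?_, fun y hy => ?_⟩
  · rw [LinearMap.comp_apply, LinearMap.comp_apply, h1 _ (hinc i y hy), hci]
  · rw [LinearMap.comp_apply, LinearMap.comp_apply, h2 _ (hinc j y hy), map_zero]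

lemma opSep_of_pow (hC : IsCurveLike W C c) (m : ℕ) : ∀ {s i j : ℕ}, s ≤ 2 * m →
    OpSep W (timesPow X C m) (i + s) (j + s) → OpSep W X i j := by
  induction m with
  | zero =>
    intro s i j hs h
    obtain rfl : s = 0 := by omega
    exact h
  | succ m ih =>
    intro s i j hs h
    rcases Nat.lt_or_ge (2 * m) s with h1 | h1
    · by_cases h2 : s = 2 * m + 1
      · subst h2
        exact ih le_rfl (opSep_of_curve hC (i := i + 2 * m) (j := j + 2 * m) h)
      · obtain rfl : s = 2 * m + 2 := by omega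
        exact ih le_rfl (opSep_of_inc hC (a := 1) (i := i + 2 * m) (j := j + 2 * m) le_rfl h)
    · exact ih h1 (opSep_of_inc hC (a := 0) (Nat.zero_le _) h)

/-- The middle degrees of the `X × C^m` in one parity of the dimension give the separation of two
degrees. -/
lemma opSep_of_parity (hC : IsCurveLike W C c) {D : ℕ → Prop} (r : ℕ) (hr : r < 2)
    (hall : ∀ m ≤ X.dim + 1, (X.dim + m) % 2 = r → MidSep W D (timesPow X C m)) {i j : ℕ}
    (hji : j < i) (hi : i ≤ 2 * X.dim) (hD : D (i - j)) : OpSep W X i j := by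
  obtain ⟨m, hm1, hm2, hm3, hm4⟩ : ∃ m ≤ X.dim + 1, (X.dim + m) % 2 = r ∧ i ≤ X.dim + m ∧
      X.dim ≤ i + m := by
    rcases Nat.lt_or_ge X.dim i with h1 | h1
    · by_cases h2 : i % 2 = r
      · exact ⟨i - X.dim, by omega, by omega, by omega, by omega⟩
      · exact ⟨i - X.dim + 1, by omega, by omega, by omega, by omega⟩
    · by_cases h2 : i % 2 = r
      · exact ⟨X.dim - i, by omega, by omega, by omega, by omega⟩
      · exact ⟨X.dim - i + 1, by omega, by omega, by omega, by omega⟩
  have hdim : (timesPow X C m).dim = X.dim + m := dim_timesPow hC.dim m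
  obtain ⟨s, hs⟩ : ∃ s, i + s = X.dim + m := ⟨X.dim + m - i, by omega⟩
  have h := hall m hm1 hm2 (j + s) (by rw [hdim]; omega) (by
    rw [hdim]
    rwa [show X.dim + m - (j + s) = i - j by omega])
  rw [hdim, ← hs] at h
  exact opSep_of_pow hC m (s := s) (by omega) (opSep_of_pairs h)

lemma conjectureC_of_opSep (hs : ∀ i j, j < i → i ≤ 2 * X.dim → OpSep W X i j) :
    ConjectureC W X := by
  intro i hi
  rw [kunneth_iff_opSep]
  intro j hj
  rcases Nat.lt_or_ge j i with h1 | h1
  · exact hs i j h1 hi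
  · by_cases h2 : j ≤ 2 * X.dim
    · exact (hs j i (by omega) h2).symm
    · exact opSep_big (by omega)

/-! ### Products -/

lemma kunneth_iff_proj {i : ℕ} :
    KunnethIn W X i ↔ proj (W.isInternal X) i ∈ KOp W X X 0 := by
  constructor
  · rintro ⟨γ, hγ, h⟩
    have : proj (W.isInternal X) i = W.corr γ := by
      apply gr_ext (W.isInternal X)
      intro j a ha
      rw [h j a ha]
      by_cases hj : j = i
      · subst hj; rw [proj_same _ ha, if_pos rfl]
      · rw [proj_ne _ ha hj, if_neg hj]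
    rw [this]
    exact mem_KOp0_iff.2 ⟨γ, hγ, rfl⟩
  · intro h
    obtain ⟨γ, hγ, hγ'⟩ := mem_KOp0_iff.1 h
    refine ⟨γ, hγ, fun j a ha => ?_⟩
    rw [hγ']
    by_cases hj : j = i
    · subst hj; rw [proj_same _ ha, if_pos rfl]
    · rw [proj_ne _ ha hj, if_neg hj]

lemma proj_big {i : ℕ} (hi : 2 * X.dim < i) : proj (W.isInternal X) i = 0 := by
  apply gr_ext (W.isInternal X)
  intro j a ha
  rw [LinearMap.zero_apply]
  by_cases hj : j = i
  · subst hj
    rw [W.gr_eq_bot X j hi] at ha
    rw [(Submodule.mem_bot _).1 ha, map_zero]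
  · rw [proj_ne _ ha hj]

lemma conjectureC_iff_proj : ConjectureC W X ↔ ∀ i, proj (W.isInternal X) i ∈ KOp W X X 0 := by
  constructor
  · intro h i
    by_cases hi : i ≤ 2 * X.dim
    · exact kunneth_iff_proj.1 (h i hi)
    · rw [proj_big (by omega)]
      exact Submodule.zero_mem _
  · exact fun h i _ => kunneth_iff_proj.2 (h i)

lemma linearMap_ext_prod {V : Type*} [AddCommGroup V] [Module W.K V]
    {F G : W.H (Y.prod Z) →ₗ[W.K] V}
    (h : ∀ i j, ∀ a ∈ W.gr Y i, ∀ b ∈ W.gr Z j, F (W.map (fst Y Z) a * W.map (snd Y Z) b) =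
      G (W.map (fst Y Z) a * W.map (snd Y Z) b)) : F = G := by
  apply LinearMap.ext
  intro c
  refine W.kunneth_induction (p := fun c => F c = G c) ?_ h c
  intro a b ha hb
  rw [map_add, map_add, ha, hb]

lemma proj_prod (N : ℕ) : proj (W.isInternal (Y.prod Z)) N =
    ∑ a ∈ range (N + 1), extOp W (proj (W.isInternal Y) a) (proj (W.isInternal Z) (N - a)) := by
  classical
  apply linearMap_ext_prod
  intro i j a ha b hb
  have hab : W.map (fst Y Z) a * W.map (snd Y Z) b ∈ W.gr (Y.prod Z) (i + j) :=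
    W.mul_mem (W.map_mem _ ha) (W.map_mem _ hb)
  rw [LinearMap.sum_apply]
  simp only [extOp_tmul]
  by_cases hN : i + j = N
  · rw [← hN, proj_same _ hab, Finset.sum_eq_single_of_mem i (by simp)]
    · rw [proj_same _ ha, Nat.add_sub_cancel_left, proj_same _ hb]
    · intro l _ hl
      rw [proj_ne _ ha (Ne.symm hl), map_zero, zero_mul]
  · rw [proj_ne _ hab hN]
    symm
    refine Finset.sum_eq_zero fun l hl => ?_
    rw [Finset.mem_range] at hl
    by_cases hli : i = l
    · subst hli
      rw [proj_ne _ hb (show j ≠ N - i by omega), map_zero, mul_zero]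
    · rw [proj_ne _ ha hli, map_zero, zero_mul]

/-- The Kunneth standard conjecture for products. -/
theorem conjectureC_prod (hY : ConjectureC W Y) (hZ : ConjectureC W Z) :
    ConjectureC W (Y.prod Z) := by
  rw [conjectureC_iff_proj] at hY hZ ⊢
  intro N
  rw [proj_prod]
  exact Submodule.sum_mem _ fun a _ => KOp.cast (KOp.ext (hY a) (hZ _)) (by ring)

/-- The Kunneth standard conjecture for curves. -/
theorem conjectureC_curve (hC : IsCurveLike W C c) : ConjectureC W C := by
  rw [conjectureC_iff_proj]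
  have ht : W.cl C c ∈ W.gr C (2 * 1) := cl_div hC.div
  have e1 : ∀ y, W.corr (W.cl _ (ops.pull (fst C C) c)) y = W.tr C (W.cl C c * y) • (1 : W.H C) := by
    intro y
    rw [corr_apply, W.cl_pull, ← map_mul (W.map (fst C C)), push_snd']
  have e2 : ∀ y, W.corr (W.cl _ (ops.pull (snd C C) c)) y = W.tr C y • W.cl C c := by
    intro y
    rw [corr_apply, W.cl_pull, W.even_comm (W.map_mem _ ht), push_snd]
  have k1 : W.corr (W.cl _ (ops.pull (fst C C) c)) ∈ KOp W C C 0 :=
    KOp.gen (p := 1) (by rw [hC.dim]; rfl) (ops.pull_mem _ hC.div)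
  have k2 : W.corr (W.cl _ (ops.pull (snd C C) c)) ∈ KOp W C C 0 :=
    KOp.gen (p := 1) (by rw [hC.dim]; rfl) (ops.pull_mem _ hC.div)
  have p0 : proj (W.isInternal C) 0 = W.corr (W.cl _ (ops.pull (fst C C) c)) := by
    apply gr_ext (W.isInternal C)
    intro i y hy
    rw [e1]
    by_cases hi : i = 0
    · subst hi
      rw [proj_same _ hy]
      rw [W.gr_zero, Submodule.mem_span_singleton] at hy
      obtain ⟨r, rfl⟩ := hy
      rw [mul_smul_comm, mul_one, map_smul, hC.deg, smul_eq_mul, mul_one]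
    · rw [proj_ne _ hy hi, W.tr_eq_zero (W.mul_mem ht hy) (by rw [hC.dim]; omega), zero_smul]
  have p2 : proj (W.isInternal C) 2 = W.corr (W.cl _ (ops.pull (snd C C) c)) := by
    apply gr_ext (W.isInternal C)
    intro i y hy
    rw [e2]
    by_cases hi : i = 2
    · subst hi
      rw [proj_same _ hy, curve_gr2 hC hy]
    · rw [proj_ne _ hy hi, W.tr_eq_zero hy (by rw [hC.dim]; omega), zero_smul]
  intro i
  rcases Nat.lt_or_ge 2 i with hi | hi
  · rw [proj_big (by rw [hC.dim]; omega)]
    exact Submodule.zero_mem _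
  · interval_cases i
    · rw [p0]; exact k1
    · rw [curve_proj_eq hC]
      exact Submodule.sub_mem _ (Submodule.sub_mem _ (KOp.id C) k1) k2
    · rw [p2]; exact k2

lemma conjectureC_pow (hC : IsCurveLike W C c) (hX : ConjectureC W X) (m : ℕ) :
    ConjectureC W (timesPow X C m) := by
  induction m with
  | zero => exact hX
  | succ m ih => exact conjectureC_prod ih (conjectureC_curve hC)

/-! ### The equivalences -/

lemma midSep_of_middlePairs {D : ℕ → Prop} (h : MiddlePairs W Y) : MidSep W D Y :=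
  fun j hj _ => h j hj

lemma middlePairs_of_kunneth (h : KunnethIn W Y Y.dim) : MiddlePairs W Y :=
  fun j hj => pairs_of_opSep (kunneth_iff_opSep.1 h j (by omega))

lemma middle_iff : MiddlePairs W Y ↔ MiddleDetects W Y :=
  forall₂_congr fun _ _ => pairsAt_iff_detectsAt

lemma kunneth_middle_iff : KunnethIn W Y Y.dim ↔ DetPair W Y Y.dim :=
  kunneth_iff_det (by omega)

lemma conjectureC_of_parity (hC : IsCurveLike W C c) (r : ℕ) (hr : r < 2)
    (hall : ∀ m ≤ X.dim + 1, (X.dim + m) % 2 = r → MiddlePairs W (timesPow X C m)) :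
    ConjectureC W X :=
  conjectureC_of_opSep fun _ _ hji hi => opSep_of_parity hC (D := fun _ => True) r hr
    (fun m hm hm2 => midSep_of_middlePairs (hall m hm hm2)) hji hi trivial

/-- **The Kunneth standard conjecture for one variety.** -/
theorem conjectureC_tfae (hC : IsCurveLike W C c) (X : 𝒱.Obj) {q : ℕ → Prop}
    (hq : q = Even ∨ q = Odd) : OneVariety W C q X := by
  unfold OneVariety
  tfae_have 1 → 2 := fun h m _ _ => conjectureC_pow hC h m _ (by omega)
  tfae_have 2 ↔ 3 := forall₃_congr fun _ _ _ => kunneth_middle_iff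
  tfae_have 2 → 4 := fun h m hm hmq => middlePairs_of_kunneth (h m hm hmq)
  tfae_have 4 ↔ 5 := forall₃_congr fun _ _ _ => middle_iff
  tfae_have 4 → 1 := by
    intro h
    rcases hq with rfl | rfl
    · exact conjectureC_of_parity hC 0 (by norm_num) fun m hm h2 => h m hm (Nat.even_iff.2 h2)
    · exact conjectureC_of_parity hC 1 (by norm_num) fun m hm h2 => h m hm (Nat.odd_iff.2 h2)
  tfae_finish

/-- **The Kunneth standard conjecture for all varieties.** -/
theorem conjectureC_tfae_all (W : WeilCohomology.{u, v} ops) (hC : IsCurveLike W C c)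
    {q : ℕ → Prop} (hq : q = Even ∨ q = Odd) : AllVarieties W q := by
  unfold AllVarieties
  tfae_have 1 → 2 := fun h Y _ => h Y trivial _ (by omega)
  tfae_have 2 ↔ 3 := forall₂_congr fun _ _ => kunneth_middle_iff
  tfae_have 2 → 4 := fun h Y hY => middlePairs_of_kunneth (h Y hY)
  tfae_have 4 ↔ 5 := forall₂_congr fun _ _ => middle_iff
  tfae_have 4 → 1 := by
    intro h Y _
    have := (conjectureC_tfae hC Y hq).out 0 3
    exact this.2 fun m _ hm2 => h _ (by rwa [dim_timesPow hC.dim])
  tfae_finish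

end Pool.Agent.Q136.KM
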