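import Pool.Agent.TH133.PW.Kun
import Pool.Agent.Q67.Mid.Curve
import Pool.Agent.Q67.Det.Kun

/-!
# The Kunneth components and the separation of classes in the middle degree
-/

open CategoryTheory AlgebraicGeometry Finset

universe u v

namespace Pool.Agent.Q136.KM

open Pool.Agent.H914 Pool.Agent.W534 Pool.Agent.W537 Pool.Agent.TH720.LB Pool.Agent.TH133.PW
  Pool.Agent.Q67.Mid Pool.Agent.Q67.Det Pool.Agent.TH122.Km VarClass Obj WeilCohomology

variable {k : Type u} [Field k] {𝒱 : VarClass k} {ops : CycleOps 𝒱}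

section Alg

variable {K : Type*} [Field K] {V : Type*} [AddCommGroup V] [Module K V]

/-- For each `y` in `gr i` and `y'` in `gr j` some linear combination `φ` of the operators in `S`,
which may depend on `y` and `y'`, satisfies `φ y = y` and `φ y' = 0`. -/
def SeparatesPairs (gr : ℕ → Submodule K V) (i j : ℕ) (S : Set (V →ₗ[K] V)) : Prop :=
  ∀ y ∈ gr i, ∀ y' ∈ gr j, ∃ φ ∈ Submodule.span K S, φ y = y ∧ φ y' = 0

variable {A B : Type*} [Ring A] [Algebra K A] [Ring B] [Algebra K B]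

/-- The element `τ` is not orthogonal to all elements of `Z`. -/
def NotOrthogonal (tr : B →ₗ[K] K) (Z : Set B) (τ : B) : Prop := ∃ c ∈ Z, tr (c * τ) ≠ 0

/-- For `y`, `w`, `y'`, `w'` of degrees `i`, `2 n - i`, `j`, `2 n - j` with `tr (y w) ≠ 0` the sum
`p(y) q(w) + p(y') q(w')` is not orthogonal to all elements of `Z`. -/
def DetectsTwoSums (gr : ℕ → Submodule K A) (n i j : ℕ) (tr : A →ₗ[K] K) (tr' : B →ₗ[K] K)
    (p q : A →ₐ[K] B) (Z : Set B) : Prop :=
  ∀ y ∈ gr i, ∀ w ∈ gr (2 * n - i), ∀ y' ∈ gr j, ∀ w' ∈ gr (2 * n - j),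
    tr (y * w) ≠ 0 → NotOrthogonal tr' Z (p y * q w + p y' * q w')

end Alg

/-- For each `y` in `H^i(X)` and `y'` in `H^j(X)` some `K`-linear combination of operators of
cycles of codimension `dim X` on `X × X`, which may depend on `y` and `y'`, fixes `y` and kills
`y'`. -/
def PairsAt (W : WeilCohomology.{u, v} ops) (X : 𝒱.Obj) (i j : ℕ) : Prop :=
  SeparatesPairs (W.gr X) i j (cycleOperators W X X.dim)

/-- For `y`, `w`, `y'`, `w'` in `H^i(X)`, `H^(2n-i)(X)`, `H^j(X)`, `H^(2n-j)(X)`, `n = dim X`, with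
`tr (y w) ≠ 0` the class `y × w + y' × w'` on `X × X` is not orthogonal to all algebraic cycles
of codimension `n`. -/
def DetectsAt (W : WeilCohomology.{u, v} ops) (X : 𝒱.Obj) (i j : ℕ) : Prop :=
  DetectsTwoSums (W.gr X) X.dim i j (W.tr X) (W.tr (X.prod X)) (W.map (fst X X))
    (W.map (snd X X)) (algClasses W (X.prod X) X.dim)

/-- Some combination of algebraic correspondences is the identity on `H^i(X)` and zero on
`H^j(X)`. -/
def OpSep (W : WeilCohomology.{u, v} ops) (X : 𝒱.Obj) (i j : ℕ) : Prop :=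
  ∃ φ ∈ KOp W X X 0, (∀ y ∈ W.gr X i, φ y = y) ∧ ∀ y ∈ W.gr X j, φ y = 0

variable {W : WeilCohomology.{u, v} ops} {X P C : 𝒱.Obj} {h : P.Cycles} {c : C.Cycles}

lemma OpSep.symm {i j : ℕ} (h : OpSep W X i j) : OpSep W X j i := by
  obtain ⟨φ, hφ, h1, h2⟩ := h
  refine ⟨LinearMap.id - φ, Submodule.sub_mem _ (KOp.id X) hφ, fun y hy => ?_, fun y hy => ?_⟩
  · rw [LinearMap.sub_apply, h2 y hy, sub_zero, LinearMap.id_apply]
  · rw [LinearMap.sub_apply, h1 y hy, LinearMap.id_apply, sub_self]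

lemma mem_KOp0_iff {φ : W.H X →ₗ[W.K] W.H X} :
    φ ∈ KOp W X X 0 ↔ ∃ γ ∈ spanCycles W (X.prod X) (X.dim : ℤ), W.corr γ = φ := by
  rw [mem_KOp_iff, add_zero]

lemma pairsAt_iff {i j : ℕ} : PairsAt W X i j ↔ ∀ y ∈ W.gr X i, ∀ y' ∈ W.gr X j,
    ∃ φ ∈ KOp W X X 0, φ y = y ∧ φ y' = 0 := by
  rw [PairsAt, SeparatesPairs, span_cycleOperators0]

lemma detectsAt_iff {i j : ℕ} : DetectsAt W X i j ↔
    ∀ y ∈ W.gr X i, ∀ w ∈ W.gr X (2 * X.dim - i), ∀ y' ∈ W.gr X j, ∀ w' ∈ W.gr X (2 * X.dim - j),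
      W.tr X (y * w) ≠ 0 → ∃ z, (X.prod X).IsCyc X.dim z ∧
        W.tr (X.prod X) (W.cl _ z * (cross W y w + cross W y' w')) ≠ 0 := by
  constructor
  · intro h y hy w hw y' hy' w' hw' h0
    obtain ⟨_, ⟨z, hz, rfl⟩, h1⟩ := h y hy w hw y' hy' w' hw' h0
    exact ⟨z, hz, h1⟩
  · intro h y hy w hw y' hy' w' hw' h0
    obtain ⟨z, hz, h1⟩ := h y hy w hw y' hy' w' hw' h0
    exact ⟨_, ⟨z, hz, rfl⟩, h1⟩

lemma opSep_of_pairs {i j : ℕ} (h : PairsAt W X i j) : OpSep W X i j := by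
  obtain ⟨c, hc, h1, h2⟩ := separate_two (K := W.K) (V := W.H X) (A := KOp W X X 0) (KOp.id X)
    (fun a ha b hb => KOp.cast (KOp.comp ha hb) (by ring))
    (IsNoetherian.noetherian _) (IsNoetherian.noetherian _)
    (fun b hb y hy => kop_gr hb i hy) (fun b hb y hy => kop_gr hb j hy) (pairsAt_iff.1 h)
  exact OpSep.symm ⟨c, hc, h2, h1⟩

lemma pairs_of_opSep {i j : ℕ} (h : OpSep W X i j) : PairsAt W X i j := by
  obtain ⟨φ, hφ, h1, h2⟩ := h
  exact pairsAt_iff.2 fun y hy y' hy' => ⟨φ, hφ, h1 y hy, h2 y' hy'⟩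

lemma pairsAt_iff_opSep {i j : ℕ} : PairsAt W X i j ↔ OpSep W X i j :=
  ⟨opSep_of_pairs, pairs_of_opSep⟩

/-! ### Detection -/

lemma detects_of_pairs {i j : ℕ} (h : PairsAt W X i j) : DetectsAt W X i j := by
  rw [detectsAt_iff]
  intro y hy w _ y' hy' w' _ hyw
  by_contra hcon
  push Not at hcon
  apply hyw
  obtain ⟨φ, hφ, h1, h2⟩ := pairsAt_iff.1 h y hy y' hy'
  have key : ∀ φ ∈ KOp W X X 0, W.tr X (φ y * w) + W.tr X (φ y' * w') = 0 := by
    intro φ hφ
    induction hφ using Submodule.span_induction with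
    | mem φ hφ =>
      obtain ⟨p, hp, z, hz, rfl⟩ := hφ
      obtain rfl : p = X.dim := by omega
      have := hcon z hz
      rwa [cross, cross, mul_add, map_add, tr_cycle_ext, tr_cycle_ext] at this
    | zero => simp
    | add φ ψ _ _ h1 h2 =>
      rw [LinearMap.add_apply, LinearMap.add_apply, add_mul, add_mul, map_add, map_add]
      linear_combination h1 + h2
    | smul a φ _ h1 =>
      rw [LinearMap.smul_apply, LinearMap.smul_apply, smul_mul_assoc, smul_mul_assoc, map_smul,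
        map_smul, ← smul_add, h1, smul_zero]
  have := key φ hφ
  rwa [h1, h2, zero_mul, map_zero, add_zero] at this

lemma pairs_of_detects {i j : ℕ} (h : DetectsAt W X i j) : PairsAt W X i j := by
  rw [detectsAt_iff] at h
  rw [pairsAt_iff]
  intro y hy y' hy'
  by_cases hi2 : i ≤ 2 * X.dim
  swap
  · rw [W.gr_eq_bot X i (by omega)] at hy
    exact ⟨0, Submodule.zero_mem _, by rw [(Submodule.mem_bot _).1 hy, map_zero], by simp⟩
  by_cases hj2 : j ≤ 2 * X.dim
  swap
  · rw [W.gr_eq_bot X j (by omega)] at hy'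
    exact ⟨LinearMap.id, KOp.id X, rfl, by rw [(Submodule.mem_bot _).1 hy', map_zero]⟩
  -- the subspace of the pairs `(φ y, φ y')`
  let M : Submodule W.K (W.H X × W.H X) := (KOp W X X 0).map
    ((LinearMap.applyₗ y).prod (LinearMap.applyₗ y'))
  by_contra hcon
  have hnot : ((y, 0) : W.H X × W.H X) ∉ M := by
    rintro ⟨φ, hφ, hφy⟩
    have h1 : φ y = y := congrArg Prod.fst hφy
    have h2 : φ y' = 0 := congrArg Prod.snd hφy
    exact hcon ⟨φ, hφ, h1, h2⟩
  obtain ⟨f, hf, hfM⟩ := Submodule.exists_le_ker_of_notMem hnot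
  obtain ⟨w, hw⟩ := TH133.PW.exists_dual (W := W) (X := X) (f ∘ₗ LinearMap.inl W.K _ _)
  obtain ⟨w', hw'⟩ := TH133.PW.exists_dual (W := W) (X := X) (f ∘ₗ LinearMap.inr W.K _ _)
  have hff : ∀ x x', f (x, x') = W.tr X (x * w) + W.tr X (x' * w') := by
    intro x x'
    rw [← hw, ← hw', LinearMap.comp_apply, LinearMap.comp_apply, ← map_add]
    simp
  have hyw : W.tr X (y * proj (W.isInternal X) (2 * X.dim - i) w) ≠ 0 := by
    rw [tr_mul_proj hi2 hy w]
    intro h0
    apply hf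
    rw [hff, zero_mul, map_zero, add_zero, h0]
  obtain ⟨z, hz, hz0⟩ := h y hy _ (proj_mem _ _ _) y' hy' _
    (proj_mem (W.isInternal X) (2 * X.dim - j) w') hyw
  apply hz0
  have hφ : W.corr (W.cl (X.prod X) z) ∈ KOp W X X 0 := KOp.gen (p := X.dim) (by ring) hz
  rw [cross, cross, mul_add, map_add, tr_cycle_ext, tr_cycle_ext,
    tr_mul_proj hi2 (kop_gr hφ i hy), tr_mul_proj hj2 (kop_gr hφ j hy'), ← hff]
  exact hfM ⟨_, hφ, rfl⟩

lemma pairsAt_iff_detectsAt {i j : ℕ} : PairsAt W X i j ↔ DetectsAt W X i j :=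
  ⟨detects_of_pairs, pairs_of_detects⟩

/-! ### Products with projective spaces -/

/-- From the product with a projective space. -/
lemma opSep_of_proj (hP : IsProjLike W P h) {a i j : ℕ} (ha : a ≤ P.dim)
    (hs : OpSep W (X.prod P) (i + 2 * a) (j + 2 * a)) : OpSep W X i j := by
  obtain ⟨φ, hφ, h1, h2⟩ := hs
  have hinc : ∀ l, ∀ y ∈ W.gr X l, inc W X h a y ∈ W.gr (X.prod P) (l + 2 * a) := fun l y hy =>
    qop_mem (qop_inc hP a) hy (by push_cast; ring)
  refine ⟨coe W X h a ∘ₗ φ ∘ₗ inc W X h a,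
    KOp.cast (KOp.comp (qop_coe hP ha).kop (KOp.comp hφ (qop_inc hP a).kop)) (by ring),
    fun y hy => ?_, fun y hy => ?_⟩
  · rw [LinearMap.comp_apply, LinearMap.comp_apply, h1 _ (hinc i y hy), coe_inc hP ha, if_pos rfl]
  · rw [LinearMap.comp_apply, LinearMap.comp_apply, h2 _ (hinc j y hy), map_zero]

/-- The projector onto one degree of the product. -/
lemma exists_proj_prod (hP : IsProjLike W P h)
    (hX : ∀ i ≤ 2 * X.dim, ∃ φ ∈ KOp W X X 0, ∀ j, ∀ y ∈ W.gr X j, φ y = if j = i then y else 0)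
    (N : ℕ) : ∃ φ ∈ KOp W (X.prod P) (X.prod P) 0,
      ∀ j, ∀ y ∈ W.gr (X.prod P) j, φ y = if j = N then y else 0 := by
  classical
  have hX' : ∀ i, ∃ φ ∈ KOp W X X 0, ∀ j, ∀ y ∈ W.gr X j, φ y = if j = i then y else 0 := by
    intro i
    by_cases hi : i ≤ 2 * X.dim
    · exact hX i hi
    · refine ⟨0, Submodule.zero_mem _, fun j y hy => ?_⟩
      rw [LinearMap.zero_apply]
      split_ifs with hj
      · subst hj
        rw [W.gr_eq_bot X j (by omega)] at hy
        rw [(Submodule.mem_bot _).1 hy]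
      · rfl
  choose π hπ hπ' using hX'
  set ν : ℕ → (W.H X →ₗ[W.K] W.H X) := fun a => if 2 * a ≤ N then π (N - 2 * a) else 0 with hν
  have hνm : ∀ a, ν a ∈ KOp W X X 0 := by
    intro a
    simp only [hν]
    split_ifs
    · exact hπ _
    · exact Submodule.zero_mem _
  refine ⟨∑ a ∈ range (P.dim + 1), inc W X h a ∘ₗ ν a ∘ₗ coe W X h a, ?_, ?_⟩
  · refine Submodule.sum_mem _ fun a ha => ?_
    rw [Finset.mem_range] at ha
    exact KOp.cast (KOp.comp (qop_inc hP _).kop (KOp.comp (hνm a) (qop_coe hP (by omega)).kop))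
      (by ring)
  · intro j y hy
    have hcoe : ∀ a ∈ range (P.dim + 1), ν a (coe W X h a y) =
        if j = N then coe W X h a y else 0 := by
      intro a ha
      rw [Finset.mem_range] at ha
      by_cases haj : 2 * a ≤ j
      · have h1 : coe W X h a y ∈ W.gr X (j - 2 * a) :=
          qop_mem (qop_coe hP (by omega)) hy (by push_cast [haj]; ring)
        simp only [hν]
        by_cases haN : 2 * a ≤ N
        · rw [if_pos haN, hπ' _ _ _ h1]
          by_cases hjN : j = N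
          · rw [if_pos hjN, if_pos (by omega)]
          · rw [if_neg hjN, if_neg (by omega)]
        · rw [if_neg haN, if_neg (by omega), LinearMap.zero_apply]
      · have h1 : coe W X h a y = 0 := qop_mem_neg (qop_coe hP (by omega)) hy (by omega)
        rw [h1, map_zero, ite_self]
    rw [LinearMap.sum_apply]
    have h2 : ∀ a ∈ range (P.dim + 1), (inc W X h a ∘ₗ ν a ∘ₗ coe W X h a) y =
        if j = N then inc W X h a (coe W X h a y) else 0 := by
      intro a ha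
      rw [LinearMap.comp_apply, LinearMap.comp_apply, hcoe a ha]
      split_ifs
      · rfl
      · exact map_zero _
    rw [Finset.sum_congr rfl h2]
    split_ifs
    · exact decomp hP y
    · exact Finset.sum_const_zero

/-! ### Products with a curve -/

lemma curve_corr (hC : IsCurveLike W C c) {i : ℕ} {γ : W.H ((X.prod C).prod (X.prod C))}
    (hz : ∀ y ∈ W.gr (X.prod C) (i + 1), W.corr γ y = y) {δ : (C.prod C).Cycles}
    (hδ : W.cl _ δ ∈ oddSpan W C) {a : W.H X} (ha : a ∈ W.gr X i) :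
    W.corr (W.push (qua X C) (γ * W.cl _ (ops.pull (kap X C) δ))) a =
      W.tr C (W.map (diag C) (W.cl _ δ)) • a := by
  have e1 : qua X C ≫ snd X X = snd _ _ ≫ fst X C := Obj.lift_snd _ _
  have e2 : qua X C ≫ fst X X = fst _ _ ≫ fst X C := Obj.lift_fst _ _
  rw [corr_apply, W.cl_pull, ← W.push_mul, ← W.push_comp, ← W.map_comp, e1, e2]
  have h0 := curve_push_cl hC (X := X) (D := 0) (SmVar.IsCyc.zero _ 1) (i := i) (w := 0)
    (γ := γ) (fun y hy => by rw [pow_zero, one_mul]; exact hz y hy) ha hδ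
  rwa [pow_zero, one_mul] at h0

lemma curve_corr_zero (hC : IsCurveLike W C c) {i : ℕ} {γ : W.H ((X.prod C).prod (X.prod C))}
    (hz : ∀ y ∈ W.gr (X.prod C) (i + 1), W.corr γ y = 0) {δ : (C.prod C).Cycles}
    (hδ : W.cl _ δ ∈ oddSpan W C) {a : W.H X} (ha : a ∈ W.gr X i) :
    W.corr (W.push (qua X C) (γ * W.cl _ (ops.pull (kap X C) δ))) a = 0 := by
  obtain ⟨γ₁, -, h1⟩ := mem_KOp_iff.1 (KOp.id (W := W) (X.prod C))
  have e1 := curve_corr hC (γ := γ₁ + γ) (fun y hy => by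
    rw [corr_add, LinearMap.add_apply, h1, hz y hy, add_zero]; rfl) hδ ha
  have e2 := curve_corr hC (γ := γ₁) (fun y hy => by rw [h1]; rfl) hδ ha
  rw [add_mul, map_add, corr_add, LinearMap.add_apply, e2] at e1
  simpa using e1

lemma curve_span_mem (hC : IsCurveLike W C c) {δ : (C.prod C).Cycles}
    (hδ : (C.prod C).IsCyc 1 δ) {γ : W.H ((X.prod C).prod (X.prod C))}
    (hγ : γ ∈ spanCycles W ((X.prod C).prod (X.prod C)) ((X.prod C).dim : ℤ)) :
    W.push (qua X C) (γ * W.cl _ (ops.pull (kap X C) δ)) ∈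
      spanCycles W (X.prod X) (X.dim : ℤ) := by
  have hdim : (X.prod C).dim = X.dim + 1 := by rw [dim_prod X C, hC.dim]
  induction hγ using Submodule.span_induction with
  | mem x hx =>
    obtain ⟨p, hp, z, hz, rfl⟩ := hx
    refine Submodule.subset_span ⟨X.dim, rfl,
      ops.push (qua X C) (ops.mul z (ops.pull (kap X C) δ)), ?_, ?_⟩
    · refine ops.push_mem _ (ops.mul_mem hz (ops.pull_mem _ hδ)) ?_
      simp only [dim_prod, hC.dim]
      omega
    · rw [W.cl_push, W.cl_mul]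
  | zero => rw [zero_mul, map_zero]; exact Submodule.zero_mem _
  | add x y _ _ hx hy => rw [add_mul, map_add]; exact Submodule.add_mem _ hx hy
  | smul a x _ hx => rw [smul_mul_assoc, map_smul]; exact Submodule.smul_mem _ _ hx

/-- From the product with a curve of positive genus. -/
lemma opSep_of_curve (hC : IsCurveLike W C c) {i j : ℕ}
    (hs : OpSep W (X.prod C) (i + 1) (j + 1)) : OpSep W X i j := by
  obtain ⟨φ, hφ, h1, h2⟩ := hs
  obtain ⟨γ, hγ, rfl⟩ := mem_KOp0_iff.1 hφ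
  obtain ⟨δ, hδ, hδ1, hδ2⟩ := curve_delta hC
  set r : W.K := W.tr C (W.map (diag C) (W.cl _ δ)) with hr
  refine ⟨r⁻¹ • W.corr (W.push (qua X C) (γ * W.cl _ (ops.pull (kap X C) δ))),
    Submodule.smul_mem _ _ (mem_KOp0_iff.2 ⟨_, curve_span_mem hC hδ hγ, rfl⟩),
    fun y hy => ?_, fun y hy => ?_⟩
  · rw [LinearMap.smul_apply, curve_corr hC h1 hδ1 hy, smul_smul, inv_mul_cancel₀ hδ2, one_smul]
  · rw [LinearMap.smul_apply, curve_corr_zero hC h2 hδ1 hy, smul_zero]

/-! ### From the pairs of degrees to the projectors -/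

/-- An operator which is the identity on `H^i(X)` and zero on the `H^j(X)` with `j` in a set. -/
lemma exists_many {i : ℕ} (q : ℕ → Prop) (hs : ∀ j, q j → OpSep W X i j) (m : ℕ) :
    ∃ e ∈ KOp W X X 0, (∀ y ∈ W.gr X i, e y = y) ∧
      ∀ j < m, q j → ∀ y ∈ W.gr X j, e y = 0 := by
  classical
  induction m with
  | zero => exact ⟨LinearMap.id, KOp.id X, fun y _ => rfl, fun j hj => absurd hj (Nat.not_lt_zero _)⟩
  | succ m ih =>
    obtain ⟨e, he, he1, he2⟩ := ih
    by_cases hm : q m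
    · obtain ⟨c, hc, hc1, hc2⟩ := hs m hm
      refine ⟨e ∘ₗ c, KOp.cast (KOp.comp he hc) (by ring), fun y hy => ?_, fun j hj hq y hy => ?_⟩
      · rw [LinearMap.comp_apply, hc1 y hy, he1 y hy]
      · rw [LinearMap.comp_apply]
        by_cases hjm : j = m
        · subst hjm
          rw [hc2 y hy, map_zero]
        · exact he2 j (by omega) hq _ (kop_gr hc j hy)
    · refine ⟨e, he, he1, fun j hj hq y hy => he2 j ?_ hq y hy⟩
      rcases Nat.lt_succ_iff_lt_or_eq.1 hj with h1 | h1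
      · exact h1
      · subst h1
        exact absurd hq hm

lemma exists_all {i : ℕ} (q : ℕ → Prop) (hs : ∀ j, q j → OpSep W X i j) :
    ∃ e ∈ KOp W X X 0, (∀ y ∈ W.gr X i, e y = y) ∧ ∀ j, q j → ∀ y ∈ W.gr X j, e y = 0 := by
  obtain ⟨e, he, he1, he2⟩ := exists_many q hs (2 * X.dim + 1)
  refine ⟨e, he, he1, fun j hj y hy => ?_⟩
  by_cases hj2 : j < 2 * X.dim + 1
  · exact he2 j hj2 hj y hy
  · rw [W.gr_eq_bot X j (by omega)] at hy
    rw [(Submodule.mem_bot _).1 hy, map_zero]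

lemma kunneth_iff_opSep {i : ℕ} : KunnethIn W X i ↔ ∀ j, j ≠ i → OpSep W X i j := by
  constructor
  · rintro ⟨γ, hγ, h⟩ j hj
    exact ⟨_, mem_KOp0_iff.2 ⟨γ, hγ, rfl⟩, fun y hy => by rw [h i y hy, if_pos rfl],
      fun y hy => by rw [h j y hy, if_neg hj]⟩
  · intro hs
    obtain ⟨e, he, he1, he2⟩ := exists_all (fun j => j ≠ i) hs
    obtain ⟨γ, hγ, rfl⟩ := mem_KOp0_iff.1 he
    refine ⟨γ, hγ, fun j a ha => ?_⟩
    split_ifs with hj
    · subst hj; exact he1 a ha
    · exact he2 j hj a ha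

end Pool.Agent.Q136.KM
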