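import Pool.Agent.Q136.KM.Main
import Pool.Agent.TH133.PW.Ev

/-!
# The sign conjecture and the middle degree
-/

open CategoryTheory AlgebraicGeometry Finset

universe u v

namespace Pool.Agent.Q136.KM

open Pool.Agent.H914 Pool.Agent.W534 Pool.Agent.W537 Pool.Agent.TH720.LB Pool.Agent.TH133.PW
  Pool.Agent.Q67.Mid Pool.Agent.Q67.Det Pool.Agent.H447 VarClass Obj WeilCohomology

variable {k : Type u} [Field k] {𝒱 : VarClass k} {ops : CycleOps 𝒱}

/-- The classes in the middle degree of `Y` are separated from the classes of the lower degrees of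
opposite parity by algebraic correspondences, one pair of classes at a time: for `y` in `H^N(Y)`,
`N = dim Y`, and `y'` in `H^j(Y)`, `j < N`, `N - j` odd, a combination of correspondences fixes `y`
and kills `y'`. -/
def MiddleParityPairs (W : WeilCohomology.{u, v} ops) (Y : 𝒱.Obj) : Prop :=
  ∀ j < Y.dim, Odd (Y.dim - j) → PairsAt W Y Y.dim j

/-- The algebraic cycles on `Y × Y` detect the sums `y × w + y' × w'` with `y` and `w` in the middle
degree `N = dim Y`, `tr (y w) ≠ 0`, and `y'`, `w'` of complementary degrees `j < N` and `2 N - j`,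
where `N - j` is odd. -/
def MiddleParityDetects (W : WeilCohomology.{u, v} ops) (Y : 𝒱.Obj) : Prop :=
  ∀ j < Y.dim, Odd (Y.dim - j) → DetectsAt W Y Y.dim j

/-- The equivalences for one variety `X` and its products with the powers of `C`. -/
def OneVarietySign (W : WeilCohomology.{u, v} ops) (C : 𝒱.Obj) (q : ℕ → Prop) (X : 𝒱.Obj) :
    Prop :=
  List.TFAE [
    SignStd W X,
    ForPowers X C q (MiddleParityPairs W),
    ForPowers X C q (MiddleParityDetects W)]

/-- The equivalences for all varieties together. -/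
def AllVarietiesSign (W : WeilCohomology.{u, v} ops) (q : ℕ → Prop) : Prop :=
  List.TFAE [
    ForDims 𝒱 (fun _ => True) (SignStd W),
    ForDims 𝒱 q (MiddleParityPairs W),
    ForDims 𝒱 q (MiddleParityDetects W)]

/-- The even projector is a combination of algebraic correspondences. -/
def EvenSpan (W : WeilCohomology.{u, v} ops) (Y : 𝒱.Obj) : Prop :=
  ∃ φ ∈ KOp W Y Y 0, ∀ j, ∀ y ∈ W.gr Y j, φ y = if Even j then y else 0

variable {W : WeilCohomology.{u, v} ops} {X Y Z C : 𝒱.Obj} {c : C.Cycles}

lemma signStd_iff_evenSpan : SignStd W X ↔ EvenSpan W X := by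
  constructor
  · rintro ⟨z, hz, h⟩
    exact ⟨_, KOp.gen (p := X.dim) (by ring) hz, h⟩
  · rintro ⟨φ, hφ, h⟩
    apply signStd_of_span
    refine ⟨φ, ?_, h⟩
    rw [span_cycleOperators0]
    exact hφ

lemma opSep_of_evenSpan (h : EvenSpan W X) {i j : ℕ} (hi : Even i) (hj : Odd j) :
    OpSep W X i j := by
  obtain ⟨φ, hφ, h⟩ := h
  exact ⟨φ, hφ, fun y hy => by rw [h i y hy, if_pos hi],
    fun y hy => by rw [h j y hy, if_neg (Nat.not_even_iff_odd.2 hj)]⟩

lemma signStd_of_opSep (hs : ∀ i j, j < i → i ≤ 2 * X.dim → Odd (i - j) → OpSep W X i j) :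
    SignStd W X := by
  have h3 : SeparatesParity (W.gr X) (cycleOperators W X X.dim) := by
    intro i j hi hj y hy y' hy'
    rw [span_cycleOperators0]
    have key : OpSep W X i j := by
      rcases Nat.lt_or_ge j i with h1 | h1
      · by_cases h2 : i ≤ 2 * X.dim
        · exact hs i j h1 h2 (Nat.Even.sub_odd (by omega) hi hj)
        · exact (opSep_big (by omega)).symm
      · have h1' : i < j := by
          rcases Nat.lt_or_ge i j with h | h
          · exact h
          · have : i = j := by omega
            subst this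
            exact absurd hi (Nat.not_even_iff_odd.2 hj)
        by_cases h2 : j ≤ 2 * X.dim
        · exact (hs j i h1' h2 (Nat.Odd.sub_even (by omega) hj hi)).symm
        · exact opSep_big (by omega)
    obtain ⟨φ, hφ, e1, e2⟩ := key
    exact ⟨φ, hφ, e1 y hy, e2 y' hy'⟩
  exact ((sign_tfae W X).out 0 2).2 h3

lemma middleParity_of_evenSpan (h : EvenSpan W Y) : MiddleParityPairs W Y := by
  intro j hj hodd
  apply pairs_of_opSep
  rcases Nat.even_or_odd Y.dim with h1 | h1
  · refine opSep_of_evenSpan h h1 ?_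
    rcases Nat.even_or_odd j with h2 | h2
    · exact absurd ((Nat.even_sub (by omega)).2 (iff_of_true h1 h2)) (Nat.not_even_iff_odd.2 hodd)
    · exact h2
  · refine (opSep_of_evenSpan h ?_ h1).symm
    rcases Nat.even_or_odd j with h2 | h2
    · exact h2
    · exact absurd (Nat.Odd.sub_odd h1 h2) (Nat.not_even_iff_odd.2 hodd)

/-! ### Products -/

theorem evenSpan_prod (hY : EvenSpan W Y) (hZ : EvenSpan W Z) : EvenSpan W (Y.prod Z) := by
  classical
  obtain ⟨φ, hφ, h1⟩ := hY
  obtain ⟨ψ, hψ, h2⟩ := hZ
  have hφ' : (1 : Module.End W.K (W.H Y)) - φ ∈ KOp W Y Y 0 := Submodule.sub_mem _ (KOp.id Y) hφ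
  have hψ' : (1 : Module.End W.K (W.H Z)) - ψ ∈ KOp W Z Z 0 := Submodule.sub_mem _ (KOp.id Z) hψ
  have e : extOp W φ ψ + extOp W (1 - φ) (1 - ψ) =
      scal (W.isInternal (Y.prod Z)) (fun l => if Even l then 1 else 0) := by
    apply linearMap_ext_prod
    intro i j a ha b hb
    have hab : W.map (fst Y Z) a * W.map (snd Y Z) b ∈ W.gr (Y.prod Z) (i + j) :=
      W.mul_mem (W.map_mem _ ha) (W.map_mem _ hb)
    rw [LinearMap.add_apply, extOp_tmul, extOp_tmul, scal_apply _ _ hab, LinearMap.sub_apply,
      LinearMap.sub_apply, Module.End.one_apply, Module.End.one_apply, h1 i a ha, h2 j b hb]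
    by_cases hi : Even i
    · by_cases hj : Even j
      · rw [if_pos hi, if_pos hj, if_pos (hi.add hj)]
        simp
      · rw [if_pos hi, if_neg hj, if_neg (by
          rw [Nat.even_add]; tauto)]
        simp
    · by_cases hj : Even j
      · rw [if_neg hi, if_pos hj, if_neg (by
          rw [Nat.even_add]; tauto)]
        simp
      · rw [if_neg hi, if_neg hj, if_pos (by
          rw [Nat.even_add]; tauto)]
        simp
  refine ⟨extOp W φ ψ + extOp W (1 - φ) (1 - ψ), Submodule.add_mem _
    (KOp.cast (KOp.ext hφ hψ) (by ring)) (KOp.cast (KOp.ext hφ' hψ') (by ring)),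
    fun j y hy => ?_⟩
  rw [e, scal_apply _ _ hy]
  split_ifs
  · rw [one_smul]
  · rw [zero_smul]

theorem evenSpan_curve (hC : IsCurveLike W C c) : EvenSpan W C := by
  have h := conjectureC_iff_proj.1 (conjectureC_curve hC) 1
  refine ⟨LinearMap.id - proj (W.isInternal C) 1, Submodule.sub_mem _ (KOp.id C) h,
    fun j y hy => ?_⟩
  rw [LinearMap.sub_apply, LinearMap.id_apply]
  by_cases hj : j = 1
  · subst hj
    rw [proj_same _ hy, sub_self, if_neg (by decide)]
  · rw [proj_ne _ hy hj, sub_zero]
    split_ifs with hev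
    · rfl
    · rw [W.gr_eq_bot C j (by
        rw [hC.dim]
        rcases Nat.lt_or_ge 2 j with h3 | h3
        · omega
        · exfalso
          interval_cases j
          · exact hev (by decide)
          · exact hj rfl
          · exact hev (by decide))] at hy
      exact (Submodule.mem_bot _).1 hy

lemma evenSpan_pow (hC : IsCurveLike W C c) (hX : EvenSpan W X) (m : ℕ) :
    EvenSpan W (timesPow X C m) := by
  induction m with
  | zero => exact hX
  | succ m ih => exact evenSpan_prod ih (evenSpan_curve hC)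

/-! ### The equivalences -/

lemma signStd_of_parity (hC : IsCurveLike W C c) (r : ℕ) (hr : r < 2)
    (hall : ∀ m ≤ X.dim + 1, (X.dim + m) % 2 = r → MiddleParityPairs W (timesPow X C m)) :
    SignStd W X :=
  signStd_of_opSep fun _ _ hji hi hodd => opSep_of_parity hC (D := Odd) r hr
    hall hji hi hodd

lemma parity_iff : MiddleParityPairs W Y ↔ MiddleParityDetects W Y :=
  forall₃_congr fun _ _ _ => pairsAt_iff_detectsAt

/-- **The sign conjecture for one variety.** -/
theorem signStd_tfae (hC : IsCurveLike W C c) (X : 𝒱.Obj) {q : ℕ → Prop}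
    (hq : q = Even ∨ q = Odd) : OneVarietySign W C q X := by
  unfold OneVarietySign
  tfae_have 1 → 2 := fun h m _ _ =>
    middleParity_of_evenSpan (evenSpan_pow hC (signStd_iff_evenSpan.1 h) m)
  tfae_have 2 ↔ 3 := forall₃_congr fun _ _ _ => parity_iff
  tfae_have 2 → 1 := by
    intro h
    rcases hq with rfl | rfl
    · exact signStd_of_parity hC 0 (by norm_num) fun m hm h2 => h m hm (Nat.even_iff.2 h2)
    · exact signStd_of_parity hC 1 (by norm_num) fun m hm h2 => h m hm (Nat.odd_iff.2 h2)
  tfae_finish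

/-- **The sign conjecture for all varieties.** -/
theorem signStd_tfae_all (W : WeilCohomology.{u, v} ops) (hC : IsCurveLike W C c)
    {q : ℕ → Prop} (hq : q = Even ∨ q = Odd) : AllVarietiesSign W q := by
  unfold AllVarietiesSign
  tfae_have 1 → 2 := fun h Y _ => middleParity_of_evenSpan (signStd_iff_evenSpan.1 (h Y trivial))
  tfae_have 2 ↔ 3 := forall₂_congr fun _ _ => parity_iff
  tfae_have 2 → 1 := by
    intro h Y _
    have := (signStd_tfae hC Y hq).out 0 1
    exact this.2 fun m _ hm2 => h _ (by rwa [dim_timesPow hC.dim])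
  tfae_finish

end Pool.Agent.Q136.KM
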